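import Mathlib
import Pool.Agent.Helper7.BombB

set_option autoImplicit false

namespace Pool.Agent.Results.MP_6d4084_an.SharpBombieri

open Polynomial Filter Topology

/-- `K = M(1 + |1 + x|)`, the Mahler measure of `1 + |x + 1|` on the unit circle. -/
noncomputable def K : ℝ :=
  Real.exp ((2 * Real.pi)⁻¹ * ∫ t in (0:ℝ)..(2 * Real.pi),
    Real.log (1 + ‖1 + Complex.exp (t * Complex.I)‖))

/-- The Bombieri supremum norm `[p] = max_j |a_j| / C(n,j)`, `n = deg p`. -/
noncomputable def bomb (p : ℂ[X]) : ℝ :=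
  (Finset.range (p.natDegree + 1)).sup' Finset.nonempty_range_add_one
    fun j => ‖p.coeff j‖ / (p.natDegree.choose j : ℝ)

/-- `‖q‖`, the maximum of `|q|` on the closed unit disc. -/
noncomputable def diskNorm (q : ℂ[X]) : ℝ := ⨆ z : Metric.closedBall (0:ℂ) 1, ‖q.eval (z:ℂ)‖

/-- The set of the quotients `‖q‖ / [p]` with `p` monic of degree `n` and `q` a monic divisor. -/
def quotients (n : ℕ) : Set ℝ :=
  {x | ∃ p q : ℂ[X], p.Monic ∧ p.natDegree = n ∧ q.Monic ∧ q ∣ p ∧ x = diskNorm q / bomb p}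

/-- `S_n`. -/
noncomputable def S (n : ℕ) : ℝ := sSup (quotients n)

theorem upper (n : ℕ) : ∀ x ∈ quotients n, x ≤ K ^ n := by
  rintro x ⟨p, q, hp, hpd, hq, hqp, rfl⟩
  have h1 : diskNorm q ≤ K ^ p.natDegree * bomb p := Helper7.BombB.diskNorm_le hp hq hqp
  have h2 : 1 ≤ bomb p := Helper7.BombB.one_le_bomb hp
  rw [div_le_iff₀ (by linarith), ← hpd]
  exact h1

theorem lower (n : ℕ) : ∃ x ∈ quotients n, K ^ n / (n + 1) ≤ x := by
  obtain ⟨p, q, hp, hpd, hq, hqp, hb, hle⟩ := Helper7.BombB.lower n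
  refine ⟨_, ⟨p, q, hp, hpd, hq, hqp, rfl⟩, ?_⟩
  have hb' : bomb p = 1 := hb
  rw [hb', div_one]
  exact hle

theorem S_bounds (n : ℕ) : K ^ n / (n + 1) ≤ S n ∧ S n ≤ K ^ n := by
  obtain ⟨x, hx, hle⟩ := lower n
  have hbdd : BddAbove (quotients n) := ⟨K ^ n, fun x hx => upper n x hx⟩
  exact ⟨hle.trans (le_csSup hbdd hx), csSup_le ⟨x, hx⟩ (upper n)⟩

theorem K_pos : 0 < K := Real.exp_pos _

theorem tendsto_S : Tendsto (fun n : ℕ => S n ^ ((1:ℝ) / n)) atTop (𝓝 K) := by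
  have hroot : Tendsto (fun n : ℕ => ((n:ℝ) + 1) ^ ((1:ℝ) / n)) atTop (𝓝 1) := by
    have h1 := tendsto_rpow_div_mul_add 1 1 (-1) (by norm_num)
    have h2 : Tendsto (fun n : ℕ => (n:ℝ) + 1) atTop atTop :=
      tendsto_atTop_add_const_right _ _ tendsto_natCast_atTop_atTop
    have h3 := h1.comp h2
    refine h3.congr fun n => ?_
    simp only [Function.comp_apply]
    congr 2
    ring
  have hlow : Tendsto (fun n : ℕ => K / ((n:ℝ) + 1) ^ ((1:ℝ) / n)) atTop (𝓝 K) := by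
    have := (tendsto_const_nhds (x := K)).div hroot one_ne_zero
    rw [div_one] at this
    exact this
  refine tendsto_of_tendsto_of_tendsto_of_le_of_le' hlow tendsto_const_nhds ?_ ?_
  · filter_upwards [eventually_ge_atTop 1] with n hn
    have hn' : (n:ℝ) ≠ 0 := by positivity
    have h1 := (S_bounds n).1
    have h2 : K / ((n:ℝ) + 1) ^ ((1:ℝ) / n) = (K ^ n / (n + 1)) ^ ((1:ℝ) / n) := by
      rw [Real.div_rpow (by have := K_pos; positivity) (by positivity), ← Real.rpow_natCast,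
        ← Real.rpow_mul K_pos.le, mul_one_div_cancel hn', Real.rpow_one]
    rw [h2]
    exact Real.rpow_le_rpow (by have := K_pos; positivity) h1 (by positivity)
  · filter_upwards [eventually_ge_atTop 1] with n hn
    have hn' : (n:ℝ) ≠ 0 := by positivity
    obtain ⟨h1, h2⟩ := S_bounds n
    have h3 : K = (K ^ n) ^ ((1:ℝ) / n) := by
      rw [← Real.rpow_natCast, ← Real.rpow_mul K_pos.le, mul_one_div_cancel hn', Real.rpow_one]
    conv_rhs => rw [h3]
    exact Real.rpow_le_rpow (le_trans (by have := K_pos; positivity) h1) h2 (by positivity)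

/-- **Main result.** `limsup S_n^{1/n} = K` (in fact the limit exists and equals `K`), and
`K^n / (n+1) ≤ S_n ≤ K^n` for every `n`. -/
theorem result :
    limsup (fun n : ℕ => S n ^ ((1:ℝ) / n)) atTop = K ∧
    Tendsto (fun n : ℕ => S n ^ ((1:ℝ) / n)) atTop (𝓝 K) ∧
    ∀ n : ℕ, K ^ n / (n + 1) ≤ S n ∧ S n ≤ K ^ n :=
  ⟨tendsto_S.limsup_eq, tendsto_S, S_bounds⟩

end Pool.Agent.Results.MP_6d4084_an.SharpBombieri
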